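import Pool.Agent.Helper22_DEN3.Stmt
import Pool.Agent.Helper22_DEN.Asm
import Pool.Agent.Helper76_DEN.Cnt

/-!
# SUM: the sum over the orbits of a congruence subgroup
-/

open scoped BigOperators

namespace Pool.Agent.DEN.H913

/-- SUM from the modules BIR, VAN, STL, MAS, FIN, ROOT, NRM. -/
theorem sum_aux (hBir : BirStmt) (hVan : VanStmt) (hStl : StlStmt) (hMas : MasStmt)
    (hFin : FinStmt) (hRoots : RootSignStmt) (hNrm : NrmStmt) : SumStmt := by
  classical
  intro r C hC K _ _ hr M N hM hN S hinj hcusp w B hB hbound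
  by_cases hD : N.natDegree = 0
  · have hS : S = ∅ := by
      rw [Finset.eq_empty_iff_forall_notMem]
      intro x hx
      obtain ⟨f, hf, hfx⟩ := hcusp x hx
      exact hfx (H22.zero_case hBir hVan hr hC N hN hD f hf x)
    rw [hS, Finset.sum_empty]
    positivity
  choose γ hγ l g hg hl hx using fun x : XX C K => hBir r C hC K x
  have hidx : ∀ l' ∈ S.image l, ∑ x ∈ S with l x = l',
      (B * (Nat.card K : ℝ) ^ dep C (l x)) /
        (Nat.card (MulAction.stabilizer (cong C K 1 M) x) : ℝ) ≤
      (cong C K 1 M).relIndex (arith C K 1) * B := by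
    intro l' hl'
    obtain ⟨x₀, hx₀, rfl⟩ := Finset.mem_image.mp hl'
    have hfinst := (hFin r C hC K).1 (pt (g x₀))
    have hm := hMas (grp C K) (XX C K) (arith C K 1) (cong C K 1 M) (fun x hx => hx.1)
      (fun a ha b hb => (hNrm r C hC K 1 M one_ne_zero hM isCoprime_one_left).1 a ha b hb)
      ((hFin r C hC K).2.2 M hM) (pt (g x₀)) hfinst
      (S.filter (fun x => l x = l x₀))
      (by
        intro y hy
        rw [Finset.mem_filter] at hy
        refine ⟨γ y, hγ y, ?_⟩
        have e1 : g y = g x₀ := by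
          have := hg y
          rw [hy.2] at this
          exact H76.tor_unique this (hg x₀)
        rw [← e1]
        exact hx y)
      (by
        intro y hy y' hy' h
        exact hinj y (Finset.mem_filter.mp hy).1 y' (Finset.mem_filter.mp hy').1 h)
    have hstl := hStl r C hC K (l x₀) (g x₀) (hg x₀) (hl x₀)
    calc ∑ x ∈ S with l x = l x₀, (B * (Nat.card K : ℝ) ^ dep C (l x)) /
        (Nat.card (MulAction.stabilizer (cong C K 1 M) x) : ℝ)
        ≤ ∑ x ∈ S with l x = l x₀, B *
          ((Nat.card (MulAction.stabilizer (arith C K 1) (pt (g x₀))) : ℝ) /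
          (Nat.card (MulAction.stabilizer (cong C K 1 M) x) : ℝ)) := by
          refine Finset.sum_le_sum fun x hx => ?_
          rw [Finset.mem_filter] at hx
          rw [hx.2, mul_div_assoc]
          refine mul_le_mul_of_nonneg_left ?_ hB
          refine div_le_div_of_nonneg_right ?_ (Nat.cast_nonneg _)
          exact_mod_cast hstl
      _ = B * ∑ x ∈ S with l x = l x₀,
          ((Nat.card (MulAction.stabilizer (arith C K 1) (pt (g x₀))) : ℝ) /
          (Nat.card (MulAction.stabilizer (cong C K 1 M) x) : ℝ)) := by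
          rw [Finset.mul_sum]
      _ ≤ B * (cong C K 1 M).relIndex (arith C K 1) := mul_le_mul_of_nonneg_left hm hB
      _ = _ := mul_comm _ _
  have hcard : ((S.image l).card : ℝ) ≤ (N.natDegree : ℝ) ^ r := by
    have := H76.cnt_lset hRoots hC N.natDegree (S.image l) (by
      intro l' hl' i
      obtain ⟨x, hxS, rfl⟩ := Finset.mem_image.mp hl'
      refine ⟨hl x i, ?_⟩
      obtain ⟨f, hf, hfx⟩ := hcusp x hxS
      by_contra hlt
      apply hfx
      rw [hx x]
      refine hVan r C hC K N hN f hf (γ x) (hγ x) (l x) (g x) (hg x) (hl x) i ?_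
      omega)
    exact_mod_cast this
  calc ∑ x ∈ S, w x
      ≤ ∑ x ∈ S, (B * (Nat.card K : ℝ) ^ dep C (l x)) /
        (Nat.card (MulAction.stabilizer (cong C K 1 M) x) : ℝ) := by
        refine Finset.sum_le_sum fun x _ => ?_
        have := (hFin r C hC K).2.1 M x
        have hpos : (0 : ℝ) < Nat.card (MulAction.stabilizer (cong C K 1 M) x) := by
          exact_mod_cast Nat.card_pos
        rw [le_div_iff₀ hpos]
        have := hbound (γ x) (hγ x) (l x) (g x) (hg x) (hl x)
        rwa [← hx x] at this
    _ = ∑ l' ∈ S.image l, ∑ x ∈ S with l x = l', (B * (Nat.card K : ℝ) ^ dep C (l x)) /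
        (Nat.card (MulAction.stabilizer (cong C K 1 M) x) : ℝ) :=
        (Finset.sum_fiberwise_of_maps_to
          (fun x hx => Finset.mem_image_of_mem l hx) _).symm
    _ ≤ ∑ l' ∈ S.image l, (cong C K 1 M).relIndex (arith C K 1) * B :=
        Finset.sum_le_sum hidx
    _ = (S.image l).card * ((cong C K 1 M).relIndex (arith C K 1) * B) := by
        simp
    _ ≤ (N.natDegree : ℝ) ^ r * ((cong C K 1 M).relIndex (arith C K 1) * B) :=
        mul_le_mul_of_nonneg_right hcard (by positivity)
    _ = _ := by ring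

/-- SUM. -/
theorem sum : SumStmt :=
  sum_aux H22.hBir H22.hVan H22.hStl H26.mas H22.hFin H22.hRS H22.hNrm

end Pool.Agent.DEN.H913
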